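import Pool.Agent.Helper72.SE.Core

/-!
Rounding by the local Cheeger inequality.
-/

set_option autoImplicit false

namespace Pool.Agent.Helper72.SE

open Finset Pool.Agent.H647R3.UG Pool.Agent.Helper72.SA Pool.Agent.TH522.UG

section
variable {V : Type} [Fintype V] [DecidableEq V]

theorem energy_eq {P : V → V → ℝ} (hP : Ker P) (h : V → ℝ) :
    ∑ u, h u ^ 2 - ∑ u, ∑ v, P u v * (h u * h v) =
      1 / 2 * ∑ u, ∑ v, P u v * (h u - h v) ^ 2 + ∑ u, (1 - ∑ v, P u v) * h u ^ 2 := by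
  have e1 : ∑ u, ∑ v, P u v * (h u - h v) ^ 2 = ∑ u, ∑ v, P u v * h u ^ 2 +
      ∑ u, ∑ v, P u v * h v ^ 2 - 2 * ∑ u, ∑ v, P u v * (h u * h v) := by
    rw [mul_sum, ← sum_add_distrib, ← sum_sub_distrib]
    refine sum_congr rfl fun u _ => ?_
    rw [mul_sum, ← sum_add_distrib, ← sum_sub_distrib]
    exact sum_congr rfl fun v _ => by ring
  have e2 : ∑ u, ∑ v, P u v * h v ^ 2 = ∑ u, ∑ v, P u v * h u ^ 2 := by
    rw [sum_comm]
    exact sum_congr rfl fun u _ => sum_congr rfl fun v _ => by rw [hP.sy]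
  have e3 : ∑ u, (1 - ∑ v, P u v) * h u ^ 2 = ∑ u, h u ^ 2 - ∑ u, ∑ v, P u v * h u ^ 2 := by
    rw [← sum_sub_distrib]
    refine sum_congr rfl fun u _ => ?_
    rw [← sum_mul]
    ring
  rw [e1, e2, e3]
  ring

theorem energy_trunc {P : V → V → ℝ} (hP : Ker P) (y : V → ℝ) (hy : ∀ u, 0 ≤ y u) :
    ∑ u, (max (y u - 1 / 2) 0) ^ 2 -
      ∑ u, ∑ v, P u v * (max (y u - 1 / 2) 0 * max (y v - 1 / 2) 0) ≤
    ∑ u, y u ^ 2 - ∑ u, ∑ v, P u v * (y u * y v) := by
  rw [energy_eq hP, energy_eq hP]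
  have h1 : ∀ u v, (max (y u - 1 / 2) 0 - max (y v - 1 / 2) 0) ^ 2 ≤ (y u - y v) ^ 2 := by
    intro u v
    rw [sq_le_sq]
    have := abs_max_sub_max_le_abs (y u - 1 / 2) (y v - 1 / 2) 0
    refine this.trans (le_of_eq ?_)
    congr 1
    ring
  have h2 : ∀ u, (max (y u - 1 / 2) 0) ^ 2 ≤ y u ^ 2 := by
    intro u
    refine pow_le_pow_left₀ (le_max_right _ _) ?_ 2
    exact max_le (by linarith [hy u]) (hy u)
  refine add_le_add ?_ ?_
  · refine mul_le_mul_of_nonneg_left ?_ (by norm_num)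
    exact sum_le_sum fun u _ => sum_le_sum fun v _ =>
      mul_le_mul_of_nonneg_left (h1 u v) (hP.nn u v)
  · exact sum_le_sum fun u _ => mul_le_mul_of_nonneg_left (h2 u) (by linarith [hP.row u])

theorem core2 (hCH : S_CHEEGER) (hTR : S_TRACE) (hIT : S_ITER) (P : V → V → ℝ) (hP : Ker P)
    (k m : ℕ) (φ c e : ℝ) (hk : 1 ≤ k) (hkm : k ≤ m) (hmn : m ≤ Fintype.card V)
    (hmk : (1 + c / 8) * k < m + 1) (hφ : 0 < φ) (hφ1 : φ ≤ 1) (hc : 0 < c) (hc1 : c ≤ 1)
    (he : 0 < e) (hec : e ≤ c * φ ^ 2 / 128) (hSE : SSE P m φ) (D : ℕ)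
    (hD : 2 ^ 12 * ((Fintype.card V : ℝ) / (k * c)) *
      (Fintype.card V : ℝ) ^ (2 ^ 11 * e / (c * φ ^ 2)) + 10 * Real.log (1 / e) ≤ D)
    (L : ((V → Bool) → ℝ) →ₗ[ℝ] ℝ) (hL : SAh D L)
    (hcard : ∀ S : Finset V, S.card < D → ∀ f : (V → Bool) → ℝ, Dep S f →
      L (fun x => f x * (∑ v, ind v true x - k)) = 0)
    (hEn : En P L ≤ e * k) : False := by
  have hk0 : (0 : ℝ) < k := by exact_mod_cast hk
  have hkm' : (k : ℝ) ≤ m := by exact_mod_cast hkm
  have hφ2 : φ ^ 2 ≤ 1 := pow_le_one₀ hφ.le hφ1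
  have hφ20 : 0 < φ ^ 2 := by positivity
  have hec' : e ≤ c / 128 := by nlinarith
  obtain ⟨L', hL', hsum, hPh', hEn'⟩ := core0 hTR hIT P hP k m φ c e hk (hkm.trans hmn)
    (hk.trans hkm) hmn hφ hφ1 hc hc1 he hec' hSE D (by
      refine le_trans ?_ hD
      have h1 : (Fintype.card V : ℝ) / (m * c) ≤ (Fintype.card V : ℝ) / (k * c) :=
        div_le_div_of_nonneg_left (Nat.cast_nonneg _) (by positivity)
          (mul_le_mul_of_nonneg_right hkm' hc.le)
      have h2 : 0 ≤ (Fintype.card V : ℝ) ^ (2 ^ 11 * e / (c * φ ^ 2)) := by positivity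
      have h3 := mul_le_mul_of_nonneg_right (mul_le_mul_of_nonneg_left h1
        (by norm_num : (0 : ℝ) ≤ 2 ^ 12)) h2
      linarith) L hL hcard hEn
  have hlaw := Sx.law le_rfl hL'
  obtain ⟨y, hy⟩ : ∃ y : V → ℝ, y = fun u => pr L' u true := ⟨_, rfl⟩
  have hy0 : ∀ u, 0 ≤ y u := fun u => by rw [hy]; exact Sx.pr_nonneg le_rfl hL' u true
  have hy1 : ∀ u, y u ≤ 1 := fun u => by
    have h1 := Sx.pr_nonneg le_rfl hL' u false
    rw [pr_false hL'] at h1
    rw [hy]
    simp only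
    linarith
  have hsumy : ∑ u, y u = k := by rw [hy]; exact hsum
  have hPhy : Ph L' = 2 * ∑ u, y u * (1 - y u) := by
    unfold Ph
    rw [mul_sum, hy]
    exact sum_congr rfl fun u _ => vr_eq hL' u
  obtain ⟨F, hF⟩ : ∃ F, F = ∑ u, y u * (1 - y u) := ⟨_, rfl⟩
  rw [hPhy, ← hF] at hPh'
  have hyy0 : ∀ u, 0 ≤ y u * (1 - y u) := fun u => mul_nonneg (hy0 u) (by linarith [hy1 u])
  -- the energy of `y`
  have hEy : ∑ u, y u ^ 2 - ∑ u, ∑ v, P u v * (y u * y v) ≤ 2 * e * k := by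
    -- from the positive semidefiniteness of the covariances on two points
    have hpt : ∀ u v, (y u - y v) ^ 2 ≤ y u + y v - 2 * pr2 L' u v true true := by
      intro u v
      have h1 := hL'.junta {u, v} ((card_le_two).trans (by norm_num))
        (fun z => ((ind u true z - ind v true z) - (y u - y v)) ^ 2) (fun z z' h => by
          have d1 := Mx.dep_ind u true {u, v} (by simp) z z' h
          have d2 := Mx.dep_ind v true {u, v} (by simp) z z' h
          simp only [d1, d2]) (fun z => sq_nonneg _)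
      have h2 : (fun z : V → Bool => ((ind u true z - ind v true z) - (y u - y v)) ^ 2) =
          ind u true + ind v true - (2 : ℝ) • (fun z => ind u true z * ind v true z) -
            (2 * (y u - y v)) • (ind u true - ind v true) + ((y u - y v) ^ 2) • (fun _ => 1) := by
        funext z
        simp only [Pi.add_apply, Pi.sub_apply, Pi.smul_apply, smul_eq_mul]
        have a1 := Mx.hsq u true z
        have a2 := Mx.hsq v true z
        nlinarith
      rw [h2, map_add, map_sub, map_sub, map_add, map_smul, map_smul, map_smul, map_sub,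
        hL'.one] at h1
      have e1 : L' (ind u true) = y u := by rw [hy]; rfl
      have e2 : L' (ind v true) = y v := by rw [hy]; rfl
      have e3 : L' (fun z => ind u true z * ind v true z) = pr2 L' u v true true := rfl
      rw [e1, e2, e3] at h1
      simp only [smul_eq_mul] at h1
      nlinarith
    rw [energy_eq hP]
    refine le_trans ?_ hEn'
    unfold En
    have hyL : ∀ u, pr L' u true = y u := fun u => by rw [hy]
    simp only [hyL]
    have s1 : ∑ u, ∑ v, P u v * (y u - y v) ^ 2 ≤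
        ∑ u, ∑ v, P u v * (y u + y v - 2 * pr2 L' u v true true) :=
      sum_le_sum fun u _ => sum_le_sum fun v _ => mul_le_mul_of_nonneg_left (hpt u v) (hP.nn u v)
    have s2 : ∑ u, ∑ v, P u v * (y u + y v - 2 * pr2 L' u v true true) =
        2 * ∑ u, ∑ v, P u v * y u - 2 * ∑ u, ∑ v, P u v * pr2 L' u v true true := by
      have e2 : ∑ u, ∑ v, P u v * y v = ∑ u, ∑ v, P u v * y u := by
        rw [sum_comm]
        exact sum_congr rfl fun u _ => sum_congr rfl fun v _ => by rw [hP.sy]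
      have e1 : ∑ u, ∑ v, P u v * (y u + y v - 2 * pr2 L' u v true true) =
          ∑ u, ∑ v, P u v * y u + ∑ u, ∑ v, P u v * y v -
            2 * ∑ u, ∑ v, P u v * pr2 L' u v true true := by
        rw [mul_sum, ← sum_add_distrib, ← sum_sub_distrib]
        refine sum_congr rfl fun u _ => ?_
        rw [mul_sum, ← sum_add_distrib, ← sum_sub_distrib]
        exact sum_congr rfl fun v _ => by ring
      rw [e1, e2]
      ring
    have s3 : ∑ u, (1 - ∑ v, P u v) * y u ^ 2 ≤ ∑ u, y u - ∑ u, ∑ v, P u v * y u := by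
      rw [← sum_sub_distrib]
      refine sum_le_sum fun u _ => ?_
      rw [← sum_mul]
      have a1 : 0 ≤ 1 - ∑ v, P u v := by linarith [hP.row u]
      have a2 : y u ^ 2 ≤ y u := by nlinarith [hy0 u, hy1 u]
      have := mul_le_mul_of_nonneg_left a2 a1
      linarith
    linarith
  -- the truncation
  obtain ⟨g, hg⟩ : ∃ g : V → ℝ, g = fun u => max (y u - 1 / 2) 0 := ⟨_, rfl⟩
  have htr := energy_trunc hP y hy0
  have hgu : ∀ u, max (y u - 1 / 2) 0 = g u := fun u => by rw [hg]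
  simp only [hgu] at htr
  set T : Finset V := univ.filter fun u => 0 < g u with hT
  have hTiff : ∀ u, u ∈ T ↔ 1 / 2 < y u := by
    intro u
    rw [hT, mem_filter, hg]
    simp only [mem_univ, true_and, lt_max_iff, lt_self_iff_false, or_false, sub_pos]
  have hsplit : ∀ h : V → ℝ, ∑ u, h u = ∑ u ∈ T, h u + ∑ u ∈ univ \ T, h u := by
    intro h
    rw [add_comm]
    exact (Finset.sum_sdiff (Finset.subset_univ T)).symm
  have hin : ∑ u ∈ T, (1 - y u) ≤ 2 * ∑ u ∈ T, y u * (1 - y u) := by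
    rw [mul_sum]
    refine sum_le_sum fun u hu => ?_
    have := (hTiff u).1 hu
    nlinarith [hy1 u]
  have hout : ∑ u ∈ univ \ T, y u ≤ 2 * ∑ u ∈ univ \ T, y u * (1 - y u) := by
    rw [mul_sum]
    refine sum_le_sum fun u hu => ?_
    have h1 : ¬ (1 / 2 < y u) := fun h => (mem_sdiff.1 hu).2 ((hTiff u).2 h)
    push Not at h1
    nlinarith [hy0 u]
  have hFs := hsplit fun u => y u * (1 - y u)
  rw [← hF] at hFs
  have hF1 : 0 ≤ ∑ u ∈ T, y u * (1 - y u) := sum_nonneg fun u _ => hyy0 u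
  have hF2 : 0 ≤ ∑ u ∈ univ \ T, y u * (1 - y u) := sum_nonneg fun u _ => hyy0 u
  have hys := hsplit y
  rw [hsumy] at hys
  have hTc : ∑ u ∈ T, (1 - y u) = T.card - ∑ u ∈ T, y u := by
    rw [sum_sub_distrib]
    simp
  have hout0 : 0 ≤ ∑ u ∈ univ \ T, y u := sum_nonneg fun u _ => hy0 u
  have hin0 : 0 ≤ ∑ u ∈ T, (1 - y u) := sum_nonneg fun u _ => by linarith [hy1 u]
  have hTle : (T.card : ℝ) ≤ (1 + c / 8) * k := by nlinarith
  have hTge : (k : ℝ) - 2 * F ≤ T.card := by nlinarith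
  have hTm : T.card ≤ m := by
    have h1 : (T.card : ℝ) < m + 1 := lt_of_le_of_lt hTle hmk
    have h2 : T.card < m + 1 := by exact_mod_cast h1
    omega
  have hch := hCH V P hP m φ hφ.le hφ1 hSE g (fun u => by rw [hg]; exact le_max_right _ _) hTm
  have hg2 : ∑ u, g u ^ 2 = T.card / 4 - ∑ u ∈ T, y u * (1 - y u) := by
    rw [hsplit fun u => g u ^ 2]
    have h1 : ∑ u ∈ univ \ T, g u ^ 2 = 0 := by
      refine sum_eq_zero fun u hu => ?_
      have h2 : ¬ (0 < g u) := fun h => (mem_sdiff.1 hu).2 (by rw [hT, mem_filter]; exact ⟨mem_univ _, h⟩)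
      have h3 : 0 ≤ g u := by rw [hg]; exact le_max_right _ _
      have h4 : g u = 0 := le_antisymm (not_lt.1 h2) h3
      rw [h4]; norm_num
    have h5 : ∑ u ∈ T, g u ^ 2 = ∑ u ∈ T, (1 / 4 - y u * (1 - y u)) := by
      refine sum_congr rfl fun u hu => ?_
      have h6 := (hTiff u).1 hu
      have h7 : g u = y u - 1 / 2 := by rw [hg]; exact max_eq_left (by linarith)
      rw [h7]
      ring
    rw [h1, h5, sum_sub_distrib, sum_const, nsmul_eq_mul]
    ring
  have hG : 5 / 32 * (k : ℝ) ≤ ∑ u, g u ^ 2 := by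
    rw [hg2]
    nlinarith
  have hfin : φ ^ 2 / 2 * ∑ u, g u ^ 2 ≤ 2 * e * k := by
    have := htr.trans hEy
    nlinarith
  have h8 : φ ^ 2 / 2 * (5 / 32 * (k : ℝ)) ≤ 2 * e * k :=
    (mul_le_mul_of_nonneg_left hG (by positivity)).trans hfin
  have h9 : 2 * e * k ≤ 2 * (1 * φ ^ 2 / 128) * k := by
    refine mul_le_mul_of_nonneg_right ?_ hk0.le
    have : c * φ ^ 2 ≤ 1 * φ ^ 2 := mul_le_mul_of_nonneg_right hc1 hφ20.le
    linarith
  have h10 : 0 < φ ^ 2 * k := by positivity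
  nlinarith

end

end Pool.Agent.Helper72.SE
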