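import Pool.Agent.Helper72.SE.Step

/-!
Sherali-Adams functionals with a cardinality constraint: the rounding theorem for a kernel with
small-set expansion.
-/

set_option autoImplicit false

namespace Pool.Agent.Helper72.SE

open Finset Pool.Agent.H647R3.UG Pool.Agent.Helper72.SA Pool.Agent.TH522.UG

section
variable {V : Type} [Fintype V] [DecidableEq V]

/-- the growth factor -/
theorem num1 (n e c φ : ℝ) (hn : 1 ≤ n) (he : 0 < e) (hc : 0 < c) (hec : e ≤ c / 128)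
    (hφ : 0 < φ) (T : ℕ) (hT : (T : ℝ) ≤ 8 / φ ^ 2 * Real.log n + 1) :
    (2 : ℝ) ^ (16 * (16 * e / c) * T) ≤ 4 * n ^ (2 ^ 11 * e / (c * φ ^ 2)) := by
  have hn0 : 0 < n := by linarith
  have hlog : 0 ≤ Real.log n := Real.log_nonneg hn
  have hlog2 := Real.log_two_lt_d9
  have hlog2p : 0 < Real.log 2 := Real.log_pos (by norm_num)
  have e4 : (4 : ℝ) * n ^ (2 ^ 11 * e / (c * φ ^ 2)) =
      Real.exp (2 * Real.log 2 + Real.log n * (2 ^ 11 * e / (c * φ ^ 2))) := by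
    rw [Real.exp_add, Real.rpow_def_of_pos hn0]
    congr 1
    have : (2 : ℝ) * Real.log 2 = Real.log 4 := by
      rw [show (4 : ℝ) = 2 ^ 2 by norm_num, Real.log_pow]
      norm_num
    rw [this, Real.exp_log (by norm_num)]
  rw [e4, Real.rpow_def_of_pos (by norm_num)]
  apply Real.exp_le_exp.2
  have hy : 0 ≤ e / (c * φ ^ 2) * Real.log n := by positivity
  have hec' : e / c ≤ 1 / 128 := by
    rw [div_le_iff₀ hc]
    linarith
  calc Real.log 2 * (16 * (16 * e / c) * T) = Real.log 2 * 256 * (e / c) * T := by ring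
    _ ≤ Real.log 2 * 256 * (e / c) * (8 / φ ^ 2 * Real.log n + 1) :=
        mul_le_mul_of_nonneg_left hT (by positivity)
    _ = Real.log 2 * 2048 * (e / (c * φ ^ 2) * Real.log n) + Real.log 2 * 256 * (e / c) := by
        field_simp
        ring
    _ ≤ 1 * 2048 * (e / (c * φ ^ 2) * Real.log n) + Real.log 2 * 256 * (1 / 128) := by
        refine add_le_add ?_ ?_
        · exact mul_le_mul_of_nonneg_right (by linarith) hy
        · exact mul_le_mul_of_nonneg_left hec' (by positivity)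
    _ = _ := by ring

theorem Ph_le {D : ℕ} {L : ((V → Bool) → ℝ) →ₗ[ℝ] ℝ} (hL : SAh D L) :
    Ph L ≤ 2 * ∑ u, pr L u true := by
  unfold Ph
  rw [mul_sum]
  refine sum_le_sum fun u _ => ?_
  rw [vr_eq hL]
  have := sq_nonneg (pr L u true)
  nlinarith

theorem core0 (hTR : S_TRACE) (hIT : S_ITER) (P : V → V → ℝ) (hP : Ker P)
    (k m : ℕ) (φ c e : ℝ) (hk : 1 ≤ k) (hkn : k ≤ Fintype.card V) (hm : 1 ≤ m)
    (hmn : m ≤ Fintype.card V) (hφ : 0 < φ) (hφ1 : φ ≤ 1) (hc : 0 < c) (hc1 : c ≤ 1)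
    (he : 0 < e) (hec : e ≤ c / 128) (hSE : SSE P m φ) (D : ℕ)
    (hD : 2 ^ 12 * ((Fintype.card V : ℝ) / (m * c)) *
      (Fintype.card V : ℝ) ^ (2 ^ 11 * e / (c * φ ^ 2)) + 10 * Real.log (1 / e) ≤ D)
    (L : ((V → Bool) → ℝ) →ₗ[ℝ] ℝ) (hL : SAh D L)
    (hcard : ∀ S : Finset V, S.card < D → ∀ f : (V → Bool) → ℝ, Dep S f →
      L (fun x => f x * (∑ v, ind v true x - k)) = 0)
    (hEn : En P L ≤ e * k) :
    ∃ L' : ((V → Bool) → ℝ) →ₗ[ℝ] ℝ, SAh 3 L' ∧ ∑ v, pr L' v true = k ∧ Ph L' < c / 8 * k ∧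
      En P L' ≤ 2 * e * k := by
  obtain ⟨n, hn⟩ : ∃ n : ℝ, n = Fintype.card V := ⟨_, rfl⟩
  rw [← hn] at hD
  have hn1 : 1 ≤ n := by
    rw [hn]
    exact_mod_cast le_trans hk hkn
  have hn0 : 0 < n := by linarith
  have hm0 : (0 : ℝ) < m := by exact_mod_cast hm
  have hk0 : (0 : ℝ) < k := by exact_mod_cast hk
  have hmn' : (m : ℝ) ≤ n := by rw [hn]; exact_mod_cast hmn
  have hlogn : 0 ≤ Real.log n := Real.log_nonneg hn1
  obtain ⟨T, hT⟩ : ∃ T : ℕ, T = ⌈8 / φ ^ 2 * Real.log n⌉₊ := ⟨_, rfl⟩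
  have hTl : 8 / φ ^ 2 * Real.log n ≤ T := by rw [hT]; exact Nat.le_ceil _
  have hTu : (T : ℝ) ≤ 8 / φ ^ 2 * Real.log n + 1 := by
    rw [hT]; exact (Nat.ceil_lt_add_one (by positivity)).le
  obtain ⟨X, hX⟩ : ∃ X : ℝ, X = n ^ (2 ^ 11 * e / (c * φ ^ 2)) := ⟨_, rfl⟩
  rw [← hX] at hD
  have hX1 : 1 ≤ X := by
    rw [hX]
    exact Real.one_le_rpow hn1 (by positivity)
  have hgrow := num1 n e c φ hn1 he hc hec hφ T hTu
  rw [← hX] at hgrow
  obtain ⟨τ, hτ⟩ : ∃ τ : ℝ, τ = 16 * e / c := ⟨_, rfl⟩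
  rw [← hτ] at hgrow
  have hτ0 : 0 < τ := by rw [hτ]; positivity
  have hτ1 : τ ≤ 1 / 8 := by
    rw [hτ, div_le_iff₀ hc]
    linarith
  obtain ⟨N, hN⟩ : ∃ N : ℝ, N = 4 * n / m := ⟨_, rfl⟩
  have hN0 : 0 < N := by rw [hN]; positivity
  have htr : ∀ t : ℕ, T ≤ t → ∑ u, ∑ v, ((lz P) ^ t) u v ^ 2 ≤ N := by
    intro t ht
    have h1 : (T : ℝ) ≤ t := by exact_mod_cast ht
    rw [hN, hn]
    rw [hn] at hTl
    exact hTR V P hP m φ hm hmn hφ hφ1 hSE t (hTl.trans h1)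
  obtain ⟨Z, hZ⟩ : ∃ Z : ℝ, Z = (2 : ℝ) ^ (16 * τ * T) := ⟨_, rfl⟩
  have hZ0 : 0 < Z := by rw [hZ]; positivity
  rw [← hZ] at hgrow
  have hZ' : (2 : ℝ) ^ (-(16 * τ * T)) = 1 / Z := by
    rw [hZ, Real.rpow_neg (by norm_num), one_div]
  have hZ8 : (2 : ℝ) ^ (8 * τ * T) ≤ Z := by
    rw [hZ]
    refine Real.rpow_le_rpow_of_exponent_le (by norm_num) ?_
    have : 0 ≤ τ * T := by positivity
    linarith
  have hlogτ : 0 ≤ Real.log (1 / τ) := Real.log_nonneg (by
    rw [le_div_iff₀ hτ0]; linarith)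
  obtain ⟨M, hM⟩ : ∃ M : ℕ, M = ⌈48 * (2 : ℝ) ^ (8 * τ * T) + (1 + 5 * Real.log (1 / τ))⌉₊ :=
    ⟨_, rfl⟩
  have hMl : 48 * (2 : ℝ) ^ (8 * τ * T) + (1 + 5 * Real.log (1 / τ)) ≤ M := by
    rw [hM]; exact Nat.le_ceil _
  have hMu : (M : ℝ) < 48 * (2 : ℝ) ^ (8 * τ * T) + (1 + 5 * Real.log (1 / τ)) + 1 := by
    rw [hM]; exact Nat.ceil_lt_add_one (by positivity)
  have h2T : (1 : ℝ) ≤ (2 : ℝ) ^ (8 * τ * T) := Real.one_le_rpow (by norm_num) (by positivity)
  have hM48 : (48 : ℝ) ≤ M := by linarith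
  have hM48' : 48 ≤ M := by exact_mod_cast hM48
  obtain ⟨θ, hθ⟩ : ∃ θ : ℝ, θ = c / 8 * (1 / Z / (4 * N)) := ⟨_, rfl⟩
  have hθ0 : 0 < θ := by rw [hθ]; positivity
  obtain ⟨r, hr⟩ : ∃ r : ℕ, r = ⌊4 / θ⌋₊ + 1 := ⟨_, rfl⟩
  have hrl : 4 < r * θ := by
    have h1 : 4 / θ < r := by rw [hr]; push_cast; exact Nat.lt_floor_add_one _
    rwa [div_lt_iff₀ hθ0] at h1
  have hru : (r : ℝ) ≤ 4 / θ + 1 := by
    rw [hr]
    push_cast
    have := Nat.floor_le (by positivity : 0 ≤ 4 / θ)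
    linarith
  obtain ⟨Y, hY⟩ : ∃ Y : ℝ, Y = n / (m * c) := ⟨_, rfl⟩
  rw [← hY] at hD
  have hY1 : 1 ≤ Y := by
    rw [hY, le_div_iff₀ (by positivity)]
    nlinarith
  have h4θ : 4 / θ = 512 * Y * Z := by
    rw [hθ, hN, hY]
    field_simp
    ring
  have hXY : X ≤ Y * X := le_mul_of_one_le_left (by linarith) hY1
  have hYZ : Y * Z ≤ Y * (4 * X) := mul_le_mul_of_nonneg_left hgrow (by linarith)
  have hlogs : Real.log (1 / τ) ≤ Real.log (1 / e) := by
    refine Real.log_le_log (by positivity) ?_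
    refine one_div_le_one_div_of_le he ?_
    rw [hτ, le_div_iff₀ hc]
    nlinarith
  have hDD : M + M + r ≤ D := by
    have h : ((M + M + r : ℕ) : ℝ) ≤ D := by
      push_cast
      refine le_trans ?_ hD
      rw [h4θ] at hru
      nlinarith
    exact_mod_cast h
  -- the hierarchy
  have hD3 : 3 ≤ M + M := by omega
  obtain ⟨L', ⟨hL', hcard'⟩, hPh', hEn'⟩ := hIT V P hP
    (fun j L => SAh (M + M + j) L ∧ ∀ S : Finset V, S.card ≤ j → ∀ f : (V → Bool) → ℝ, Dep S f →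
      L (fun x => f x * (∑ v, ind v true x - k)) = 0) (M + M) hD3 (fun j L h => h.1)
    (fun j L h => ⟨Sx.mono (by omega) h.1, fun S hS => h.2 S (by omega)⟩)
    (fun j L h u a ha => by
      refine ⟨Sx.step h.1 u a ha, fun S hS f hf => ?_⟩
      show L (fun x => ind u a x * (f x * (∑ v, ind v true x - k))) / pr L u a = 0
      have h1 := h.2 (insert u S) ((card_insert_le _ _).trans (by omega))
        (fun x => ind u a x * f x) (Mx.dep_mul (Mx.dep_ind u a _ (mem_insert_self _ _))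
          (Mx.dep_mono hf (subset_insert _ _)))
      have h2 : (fun x : V → Bool => ind u a x * (f x * (∑ v, ind v true x - k))) =
          fun x => ind u a x * f x * (∑ v, ind v true x - k) := by
        funext x; ring
      rw [h2, h1, zero_div])
    (c / 8 * k) θ e k hθ0 he hk0 (by positivity)
    (fun j L h h1 h2 => by
      have hSA : SAh (M + M) L := Sx.mono (by omega) h.1
      have hPh0 : 0 < Ph L := lt_of_lt_of_le (by positivity) h1
      obtain ⟨w, hw⟩ := t_STEP V P hP T N τ hN0 hτ0 hτ1 htr M (by linarith) (by linarith) L hSA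
        hPh0 (by
          refine h2.trans ?_
          have h3 : 2 * e * k = τ * (c / 8 * k) := by
            rw [hτ]
            field_simp
            ring
          rw [h3]
          exact mul_le_mul_of_nonneg_left h1 hτ0.le)
      refine ⟨w, le_trans ?_ hw⟩
      rw [hZ', hθ]
      have h4 : c / 8 * (1 / Z / (4 * N)) * k = c / 8 * k * (1 / Z / (4 * N)) := by ring
      rw [h4]
      exact mul_le_mul_of_nonneg_right h1 (by positivity))
    r hrl L ⟨Sx.mono hDD hL, fun S hS f hf => hcard S (by omega) f hf⟩ (by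
      refine (Ph_le hL).trans (le_of_eq ?_)
      congr 1
      have h1 := hcard ∅ (by rw [card_empty]; omega) (fun _ => 1) (fun _ _ _ => rfl)
      have h2 : (fun x : V → Bool => (1 : ℝ) * (∑ v, ind v true x - k)) =
          ∑ v, ind v true - (k : ℝ) • (fun _ => (1 : ℝ)) := by
        funext x
        simp only [Pi.sub_apply, Finset.sum_apply, Pi.smul_apply, smul_eq_mul]
        ring
      rw [h2, map_sub, map_sum, map_smul, hL.one, smul_eq_mul, mul_one] at h1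
      change ∑ v, pr L v true - _ = 0 at h1
      linarith) hEn
  have hsum : ∑ v, pr L' v true = k := by
    have h1 := hcard' ∅ (by rw [card_empty]) (fun _ => 1) (fun _ _ _ => rfl)
    have h2 : (fun x : V → Bool => (1 : ℝ) * (∑ v, ind v true x - k)) =
        ∑ v, ind v true - (k : ℝ) • (fun _ => (1 : ℝ)) := by
      funext x
      simp only [Pi.sub_apply, Finset.sum_apply, Pi.smul_apply, smul_eq_mul]
      ring
    rw [h2, map_sub, map_sum, map_smul, hL'.one, smul_eq_mul, mul_one] at h1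
    change ∑ v, pr L' v true - _ = 0 at h1
    linarith
  exact ⟨L', Sx.mono (by omega) hL', hsum, hPh', hEn'⟩

theorem core (hTR : S_TRACE) (hIT : S_ITER) (hRO : S_ROUND) (P : V → V → ℝ) (hP : Ker P)
    (k m : ℕ) (φ c e : ℝ) (hk : 1 ≤ k) (hkn : k ≤ Fintype.card V) (hm : 1 ≤ m)
    (hmn : m ≤ Fintype.card V) (hφ : 0 < φ) (hφ1 : φ ≤ 1) (hc : 0 < c) (hc1 : c ≤ 1)
    (he : 0 < e) (hec : e ≤ c / 128) (hSE : SSE P m φ) (D : ℕ)
    (hD : 2 ^ 12 * ((Fintype.card V : ℝ) / (m * c)) *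
      (Fintype.card V : ℝ) ^ (2 ^ 11 * e / (c * φ ^ 2)) + 10 * Real.log (1 / e) ≤ D)
    (L : ((V → Bool) → ℝ) →ₗ[ℝ] ℝ) (hL : SAh D L)
    (hcard : ∀ S : Finset V, S.card < D → ∀ f : (V → Bool) → ℝ, Dep S f →
      L (fun x => f x * (∑ v, ind v true x - k)) = 0)
    (hEn : En P L ≤ e * k) :
    ∃ S : Finset V, S.card = k ∧ (1 - c) * k ≤ ∑ u ∈ S, ∑ v ∈ S, P u v := by
  obtain ⟨L', hL', hsum, hPh', hEn'⟩ := core0 hTR hIT P hP k m φ c e hk hkn hm hmn hφ hφ1 hc hc1 he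
    hec hSE D hD L hL hcard hEn
  have hk0 : (0 : ℝ) < k := by exact_mod_cast hk
  have hlaw := Sx.law le_rfl hL'
  have hle1 : ∀ u v, pr2 L' u v true true ≤ pr L' u true := by
    intro u v
    have h1 := (hlaw u v).left true
    rw [Fintype.sum_bool] at h1
    have h2 := (hlaw u v).nonneg true false
    linarith
  have hle2 : ∀ u v, pr2 L' u v true true ≤ pr L' v true := by
    intro u v
    have h1 := (hlaw u v).right true
    rw [Fintype.sum_bool] at h1
    have h2 := (hlaw u v).nonneg false true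
    linarith
  obtain ⟨S, hS, hPS⟩ := hRO V P hP k (2 * e) (c / 16) (fun u => pr L' u true)
    (fun u v => pr2 L' u v true true) hkn (fun u => Sx.pr_nonneg le_rfl hL' u true)
    (fun u => by
      have h1 := Sx.pr_nonneg le_rfl hL' u false
      rw [pr_false hL'] at h1
      linarith) hsum (fun u v => (hlaw u v).nonneg true true) hle1 hle2 (by
      unfold En at hEn'
      rw [hsum] at hEn'
      linarith) (by
      have h1 : Ph L' = 2 * ∑ u, pr L' u true * (1 - pr L' u true) := by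
        unfold Ph
        rw [mul_sum]
        exact sum_congr rfl fun u _ => vr_eq hL' u
      rw [h1] at hPh'
      linarith)
  refine ⟨S, hS, le_trans ?_ hPS⟩
  refine mul_le_mul_of_nonneg_right ?_ hk0.le
  linarith

end

end Pool.Agent.Helper72.SE
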