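import Pool.Agent.Helper72.SA.Fct

/-!
Small-set expansion and Sherali-Adams linear programs: statements of the pieces.
-/

set_option autoImplicit false

namespace Pool.Agent.Helper72.SE

open Finset Pool.Agent.H647R3.UG Pool.Agent.Helper72.SA

/-- symmetric sub-Markov kernel -/
structure Ker {V : Type} [Fintype V] (P : V → V → ℝ) : Prop where
  nn : ∀ u v, 0 ≤ P u v
  sy : ∀ u v, P u v = P v u
  row : ∀ u, ∑ v, P u v ≤ 1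

/-- the lazy kernel, as a matrix -/
noncomputable def lz {V : Type} [Fintype V] [DecidableEq V] (P : V → V → ℝ) : Matrix V V ℝ :=
  fun u v => (1 / 2 : ℝ) * ((if u = v then 1 else 0) + P u v)

/-- sets of at most `m` vertices have expansion at least `φ` -/
def SSE {V : Type} (P : V → V → ℝ) (m : ℕ) (φ : ℝ) : Prop :=
  ∀ S : Finset V, S.card ≤ m → ∑ u ∈ S, ∑ v ∈ S, P u v ≤ (1 - φ) * S.card

/-- local Cheeger inequality -/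
def S_CHEEGER : Prop := ∀ (V : Type) [Fintype V] [DecidableEq V] (P : V → V → ℝ), Ker P →
  ∀ (m : ℕ) (φ : ℝ), 0 ≤ φ → φ ≤ 1 → SSE P m φ →
  ∀ g : V → ℝ, (∀ u, 0 ≤ g u) → (univ.filter fun u => 0 < g u).card ≤ m →
    ∑ u, ∑ v, P u v * (g u * g v) ≤ (1 - φ ^ 2 / 2) * ∑ u, g u ^ 2

/-- trace of the powers -/
def S_TRACE : Prop := ∀ (V : Type) [Fintype V] [DecidableEq V] (P : V → V → ℝ), Ker P →
  ∀ (m : ℕ) (φ : ℝ), 1 ≤ m → m ≤ Fintype.card V → 0 < φ → φ ≤ 1 → SSE P m φ →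
  ∀ t : ℕ, 8 / φ ^ 2 * Real.log (Fintype.card V) ≤ t →
    ∑ u, ∑ v, ((lz P) ^ t) u v ^ 2 ≤ 4 * Fintype.card V / m

/-- total variance; for Boolean labels it is `2 Σ y (1 - y)` -/
noncomputable def Ph {V : Type} [Fintype V] (L : ((V → Bool) → ℝ) →ₗ[ℝ] ℝ) : ℝ := ∑ v, vr L v

/-- energy -/
noncomputable def En {V : Type} [Fintype V] (P : V → V → ℝ) (L : ((V → Bool) → ℝ) →ₗ[ℝ] ℝ) : ℝ :=
  ∑ u, pr L u true - ∑ u, ∑ v, P u v * pr2 L u v true true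

/-- one conditioning step -/
def S_STEP : Prop := ∀ (V : Type) [Fintype V] [DecidableEq V] (P : V → V → ℝ), Ker P →
  ∀ (T : ℕ) (N τ : ℝ), 0 < N → 0 < τ → τ ≤ 1 / 8 →
  (∀ t : ℕ, T ≤ t → ∑ u, ∑ v, ((lz P) ^ t) u v ^ 2 ≤ N) →
  ∀ M : ℕ, 48 * (2 : ℝ) ^ (8 * τ * T) ≤ M → 1 + 5 * Real.log (1 / τ) ≤ M →
  ∀ L : ((V → Bool) → ℝ) →ₗ[ℝ] ℝ, SAh (M + M) L → 0 < Ph L → En P L ≤ τ * Ph L →
  ∃ w, Ph L * ((2 : ℝ) ^ (-(16 * τ * T)) / (4 * N)) ≤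
    Ph L - ∑ a, pr L w a * Ph (cnd L w a)

/-- iteration of the conditioning steps; `Q j` is a hierarchy closed under conditioning -/
def S_ITER : Prop := ∀ (V : Type) [Fintype V] [DecidableEq V] (P : V → V → ℝ), Ker P →
  ∀ (Q : ℕ → (((V → Bool) → ℝ) →ₗ[ℝ] ℝ) → Prop) (n0 : ℕ), 3 ≤ n0 →
  (∀ j L, Q j L → SAh (n0 + j) L) →
  (∀ j L, Q (j + 1) L → Q j L) →
  (∀ j L, Q (j + 1) L → ∀ u a, 0 < pr L u a → Q j (cnd L u a)) →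
  ∀ (a0 θ e k : ℝ), 0 < θ → 0 < e → 0 < k → 0 ≤ a0 →
  (∀ j L, Q j L → a0 ≤ Ph L → En P L ≤ 2 * e * k →
    ∃ w, θ * k ≤ Ph L - ∑ a, pr L w a * Ph (cnd L w a)) →
  ∀ (r : ℕ), 4 < r * θ → ∀ L, Q r L → Ph L ≤ 2 * k → En P L ≤ e * k →
  ∃ L', Q 0 L' ∧ Ph L' < a0 ∧ En P L' ≤ 2 * e * k

/-- rounding: `y` are the first moments, `M` the second moments -/
def S_ROUND : Prop := ∀ (V : Type) [Fintype V] [DecidableEq V] (P : V → V → ℝ), Ker P →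
  ∀ (k : ℕ) (e f : ℝ) (y : V → ℝ) (M : V → V → ℝ), k ≤ Fintype.card V →
  (∀ u, 0 ≤ y u) → (∀ u, y u ≤ 1) → ∑ u, y u = k → (∀ u v, 0 ≤ M u v) → (∀ u v, M u v ≤ y u) →
  (∀ u v, M u v ≤ y v) → (1 - e) * k ≤ ∑ u, ∑ v, P u v * M u v →
  ∑ u, y u * (1 - y u) ≤ f * k →
  ∃ S : Finset V, S.card = k ∧ (1 - e - 8 * f) * k ≤ ∑ u ∈ S, ∑ v ∈ S, P u v

/-- removal of the small sets of small expansion -/
def S_REMOVE : Prop := ∀ (V : Type) [Fintype V] [DecidableEq V] (P : V → V → ℝ), Ker P →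
  ∀ (k a m : ℕ) (φ : ℝ), 0 ≤ φ → φ ≤ 1 → a + m ≤ k → k ≤ Fintype.card V →
  (∀ S : Finset V, S.card = k → ∑ u ∈ S, ∑ v ∈ S, P u v < (1 - φ) * (a + 1)) →
  ∃ R : Finset V, R.card ≤ a ∧
    SSE (fun u v => if u ∈ R ∨ v ∈ R then 0 else P u v) m φ

end Pool.Agent.Helper72.SE
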