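import Pool.Agent.Helper72.SE.Graph
import Pool.Agent.Helper72.SE.Cheeg
import Pool.Agent.Helper72SE.Cheeger
import Pool.Agent.Helper72SE.Trace
import Pool.Agent.Helper72SE.Iter
import Pool.Agent.Helper72SE.Round
import Pool.Agent.Helper72SE.Remove

/-!
The main theorems.
-/

set_option autoImplicit false

namespace Pool.Agent.Helper72.SE

open Finset Pool.Agent.H647R3.UG Pool.Agent.Helper72.SA Pool.Agent.TH522.UG
open scoped Classical

section
variable {V : Type} [Fintype V] (G : SimpleGraph V) (d k : ℕ)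

theorem Pw_in_nonneg {P : V → V → ℝ} (hP : Ker P) (R S : Finset V) :
    ∑ u ∈ S, ∑ v ∈ S, (if u ∈ R ∨ v ∈ R then 0 else P u v) ≤ ∑ u ∈ S, ∑ v ∈ S, P u v := by
  refine sum_le_sum fun u _ => sum_le_sum fun v _ => ?_
  split_ifs
  · exact hP.nn u v
  · exact le_rfl

theorem kill_ker {P : V → V → ℝ} (hP : Ker P) (R : Finset V) :
    Ker (fun u v => if u ∈ R ∨ v ∈ R then 0 else P u v) := by
  refine ⟨fun u v => ?_, fun u v => ?_, fun u => ?_⟩
  · show 0 ≤ if u ∈ R ∨ v ∈ R then 0 else P u v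
    split_ifs
    · exact le_rfl
    · exact hP.nn u v
  · show (if u ∈ R ∨ v ∈ R then 0 else P u v) = if v ∈ R ∨ u ∈ R then 0 else P v u
    rw [hP.sy u v]
    simp only [or_comm]
  · refine (sum_le_sum fun v _ => ?_).trans (hP.row u)
    show (if u ∈ R ∨ v ∈ R then 0 else P u v) ≤ P u v
    split_ifs
    · exact hP.nn u v
    · exact le_rfl

theorem main3 (hd : 1 ≤ d) (hG : ∀ u, (univ.filter fun v => G.Adj u v).card = d) (hk : 1 ≤ k)
    (hkn : k ≤ Fintype.card V) (c φ e : ℝ) (m D : ℕ) (hc : 0 < c) (hc1 : c ≤ 1) (hφ : 0 < φ)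
    (hφ1 : φ ≤ 1) (hm : 1 ≤ m) (hmn : m ≤ Fintype.card V) (he : 0 < e) (hec : e ≤ c / 2 ^ 7)
    (hSE : ∀ S : Finset V, S.Nonempty → S.card ≤ m → φ * (d * S.card) ≤ cut G S)
    (hD : 2 ^ 12 * ((Fintype.card V : ℝ) / (c * m)) *
      (Fintype.card V : ℝ) ^ (2 ^ 11 * e / (c * φ ^ 2)) + 10 * Real.log (1 / e) ≤ D)
    (L : ((V → Bool) → ℝ) →ₗ[ℝ] ℝ) (hL : SAh D L)
    (hcard : ∀ S : Finset V, S.card < D → ∀ f : (V → Bool) → ℝ, Dep S f →
      L (fun x => f x * (∑ v, ind v true x - k)) = 0)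
    (hcut : L (cutF G) ≤ e * (d * k)) :
    ∃ S : Finset V, S.card = k ∧ (cut G S : ℝ) ≤ c * (d * k) := by
  have hd0 : (0 : ℝ) < d := by exact_mod_cast hd
  have hP := Pw_ker G d hd hG
  obtain ⟨S, hS, hPS⟩ := core (t_TRACE t_CHEEGER) t_ITER t_ROUND (Pw G d) hP k m φ c e hk hkn hm hmn
    hφ hφ1 hc hc1 he (by norm_num at hec; exact hec) (by
      intro S hSm
      rcases S.eq_empty_or_nonempty with h0 | h0
      · rw [h0]; simp
      · have h1 := hSE S h0 hSm
        rw [cut_eq G d hd hG] at h1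
        have h2 : φ * (d * (S.card : ℝ)) = d * (φ * S.card) := by ring
        rw [h2] at h1
        have h3 := le_of_mul_le_mul_left h1 hd0
        linarith) D (by rw [mul_comm (m : ℝ) c]; exact hD) L hL hcard (by
      rw [L_cut G d hd hG] at hcut
      have h2 : e * (d * (k : ℝ)) = d * (e * k) := by ring
      rw [h2] at hcut
      exact le_of_mul_le_mul_left hcut hd0)
  refine ⟨S, hS, ?_⟩
  rw [cut_eq G d hd hG, hS]
  have h2 : c * (d * (k : ℝ)) = d * (c * k) := by ring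
  rw [h2]
  refine mul_le_mul_of_nonneg_left ?_ hd0.le
  linarith

theorem main2 (hd : 1 ≤ d) (hG : ∀ u, (univ.filter fun v => G.Adj u v).card = d) (hk : 1 ≤ k)
    (hkn : k ≤ Fintype.card V) (c φ e : ℝ) (D : ℕ) (hc : 0 < c) (hc1 : c ≤ 1) (hφ : 0 < φ)
    (hφ1 : φ ≤ 1) (he : 0 < e) (hec : e ≤ c * φ ^ 2 / 2 ^ 7)
    (hD : 2 ^ 12 * ((Fintype.card V : ℝ) / (c * k)) *
      (Fintype.card V : ℝ) ^ (2 ^ 11 * e / (c * φ ^ 2)) + 10 * Real.log (1 / e) ≤ D)
    (L : ((V → Bool) → ℝ) →ₗ[ℝ] ℝ) (hL : SAh D L)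
    (hcard : ∀ S : Finset V, S.card < D → ∀ f : (V → Bool) → ℝ, Dep S f →
      L (fun x => f x * (∑ v, ind v true x - k)) = 0)
    (hcut : L (cutF G) ≤ e * (d * k)) :
    ∃ S : Finset V, S.Nonempty ∧ (S.card : ℝ) ≤ (1 + c / 8) * k ∧
      (cut G S : ℝ) < φ * (d * S.card) := by
  have hd0 : (0 : ℝ) < d := by exact_mod_cast hd
  have hk0 : (0 : ℝ) < k := by exact_mod_cast hk
  have hP := Pw_ker G d hd hG
  by_contra hcon
  push Not at hcon
  have hnn : 1 ≤ Fintype.card V := hk.trans hkn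
  have hn : (1 + c / 8) * (k : ℝ) < Fintype.card V := by
    by_contra h1
    push Not at h1
    have h2 := hcon univ (by
      rw [← Finset.card_pos, card_univ]; omega) (by rw [card_univ]; exact h1)
    rw [cut_eq G d hd hG] at h2
    have h3 : ∑ u : V, ∑ v, Pw G d u v = Fintype.card V := by
      simp only [Pw_row G d hd hG]
      simp
    rw [h3, card_univ, sub_self, mul_zero] at h2
    have h4 : (0 : ℝ) < Fintype.card V := by exact_mod_cast hnn
    have : 0 < φ * (d * (Fintype.card V : ℝ)) := by positivity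
    linarith
  obtain ⟨m, hm⟩ : ∃ m : ℕ, m = ⌊(1 + c / 8) * (k : ℝ)⌋₊ := ⟨_, rfl⟩
  have hml : (m : ℝ) ≤ (1 + c / 8) * k := by rw [hm]; exact Nat.floor_le (by positivity)
  have hmu : (1 + c / 8) * (k : ℝ) < m + 1 := by rw [hm]; exact Nat.lt_floor_add_one _
  have hkm : k ≤ m := by
    rw [hm]
    refine Nat.le_floor ?_
    have : 0 ≤ c / 8 * (k : ℝ) := by positivity
    linarith
  have hmn : m ≤ Fintype.card V := by
    have h1 : (m : ℝ) < Fintype.card V := lt_of_le_of_lt hml hn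
    have h2 : m < Fintype.card V := by exact_mod_cast h1
    omega
  refine core2 t_CHEEGER (t_TRACE t_CHEEGER) t_ITER (Pw G d) hP k m φ c e hk hkm hmn hmu hφ hφ1 hc
    hc1 he (by norm_num at hec; exact hec) (by
      intro S hSm
      rcases S.eq_empty_or_nonempty with h0 | h0
      · rw [h0]; simp
      · have hSm' : (S.card : ℝ) ≤ m := by exact_mod_cast hSm
        have h1 := hcon S h0 (hSm'.trans hml)
        rw [cut_eq G d hd hG] at h1
        have h2 : φ * (d * (S.card : ℝ)) = d * (φ * S.card) := by ring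
        rw [h2] at h1
        have h3 := le_of_mul_le_mul_left h1 hd0
        linarith) D (by rw [mul_comm (k : ℝ) c]; exact hD) L hL hcard (by
      rw [L_cut G d hd hG] at hcut
      have h2 : e * (d * (k : ℝ)) = d * (e * k) := by ring
      rw [h2] at hcut
      exact le_of_mul_le_mul_left hcut hd0)

theorem main1 (hd : 1 ≤ d) (hG : ∀ u, (univ.filter fun v => G.Adj u v).card = d) (hk : 1 ≤ k)
    (hkn : k ≤ Fintype.card V) (η : ℝ) (D : ℕ) (hη : 0 < η) (hη1 : η ≤ 1 / 2 ^ 11)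
    (hD : 2 ^ 14 * ((Fintype.card V : ℝ) / k) *
      (Fintype.card V : ℝ) ^ (2 ^ 17 * η) + 10 * Real.log (1 / η) ≤ D)
    (L : ((V → Bool) → ℝ) →ₗ[ℝ] ℝ) (hL : SAh D L)
    (hcard : ∀ S : Finset V, S.card < D → ∀ f : (V → Bool) → ℝ, Dep S f →
      L (fun x => f x * (∑ v, ind v true x - k)) = 0)
    (hcut : L (cutF G) ≤ η * (d * k)) :
    ∃ S : Finset V, S.card = k ∧ (cut G S : ℝ) < (1 - η) * (d * k) := by
  have hd0 : (0 : ℝ) < d := by exact_mod_cast hd
  have hk0 : (0 : ℝ) < k := by exact_mod_cast hk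
  have hk1 : (1 : ℝ) ≤ k := by exact_mod_cast hk
  have hkn' : (k : ℝ) ≤ Fintype.card V := by exact_mod_cast hkn
  have hn1 : (1 : ℝ) ≤ Fintype.card V := hk1.trans hkn'
  have hP := Pw_ker G d hd hG
  have hη2 : η ≤ 1 / 2048 := by norm_num at hη1; linarith
  by_contra hcon
  push Not at hcon
  have hno : ∀ S : Finset V, S.card = k → ∑ u ∈ S, ∑ v ∈ S, Pw G d u v ≤ η * k := by
    intro S hS
    have h1 := hcon S hS
    rw [cut_eq G d hd hG, hS] at h1
    have h2 : (1 - η) * (d * (k : ℝ)) = d * ((1 - η) * k) := by ring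
    rw [h2] at h1
    have h3 := le_of_mul_le_mul_left h1 hd0
    linarith
  obtain ⟨a, ha⟩ : ∃ a : ℕ, a = ⌊3 * η * (k : ℝ)⌋₊ := ⟨_, rfl⟩
  have hal : (a : ℝ) ≤ 3 * η * k := by rw [ha]; exact Nat.floor_le (by positivity)
  have hau : 3 * η * (k : ℝ) < a + 1 := by rw [ha]; exact Nat.lt_floor_add_one _
  have ha2 : (a : ℝ) ≤ k / 2 := by nlinarith
  have hak : a < k := by
    have h1 : (a : ℝ) < k := by linarith
    exact_mod_cast h1
  obtain ⟨m, hm⟩ : ∃ m : ℕ, m = k - a := ⟨_, rfl⟩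
  have hma : a + m = k := by omega
  have hma' : (a : ℝ) + m = k := by exact_mod_cast hma
  have hm1 : 1 ≤ m := by omega
  have hm0 : (0 : ℝ) < m := by exact_mod_cast hm1
  have hm2 : (k : ℝ) / 2 ≤ m := by linarith
  obtain ⟨R, hR, hSE⟩ := t_REMOVE V (Pw G d) hP k a m (1 / 2) (by norm_num) (by norm_num) hma.le hkn
    (fun S hS => by
      refine lt_of_le_of_lt (hno S hS) ?_
      have : 0 < η * (k : ℝ) := by positivity
      linarith)
  have hR' : (R.card : ℝ) ≤ 3 * η * k := by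
    have h1 : (R.card : ℝ) ≤ a := by exact_mod_cast hR
    linarith
  have hlogη : Real.log (1 / (7 * η)) ≤ Real.log (1 / η) :=
    Real.log_le_log (by positivity) (one_div_le_one_div_of_le hη (by linarith))
  have hlogη0 : 0 ≤ Real.log (1 / η) := Real.log_nonneg (by rw [le_div_iff₀ hη]; linarith)
  have hX1 : (1 : ℝ) ≤ (Fintype.card V : ℝ) ^ (2 ^ 17 * η) := Real.one_le_rpow hn1 (by positivity)
  have hlev : 2 ^ 12 * ((Fintype.card V : ℝ) / (m * (1 / 2))) *
      (Fintype.card V : ℝ) ^ (2 ^ 11 * (7 * η) / (1 / 2 * (1 / 2) ^ 2)) +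
      10 * Real.log (1 / (7 * η)) ≤ D := by
    refine le_trans ?_ hD
    have h1 : (Fintype.card V : ℝ) / (m * (1 / 2)) ≤ 4 * ((Fintype.card V : ℝ) / k) := by
      rw [mul_div_assoc', div_le_div_iff₀ (by positivity) hk0]
      nlinarith
    have h2 : (Fintype.card V : ℝ) ^ (2 ^ 11 * (7 * η) / (1 / 2 * (1 / 2) ^ 2)) ≤
        (Fintype.card V : ℝ) ^ (2 ^ 17 * η) := by
      refine Real.rpow_le_rpow_of_exponent_le hn1 ?_
      have : 2 ^ 11 * (7 * η) / (1 / 2 * (1 / 2) ^ 2) = 114688 * η := by ring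
      rw [this]
      nlinarith
    have h3 : 2 ^ 12 * ((Fintype.card V : ℝ) / (m * (1 / 2))) *
        (Fintype.card V : ℝ) ^ (2 ^ 11 * (7 * η) / (1 / 2 * (1 / 2) ^ 2)) ≤
        2 ^ 12 * (4 * ((Fintype.card V : ℝ) / k)) * (Fintype.card V : ℝ) ^ (2 ^ 17 * η) := by
      refine mul_le_mul ?_ h2 (by positivity) (by positivity)
      exact mul_le_mul_of_nonneg_left h1 (by norm_num)
    have h4 : 2 ^ 12 * (4 * ((Fintype.card V : ℝ) / k)) * (Fintype.card V : ℝ) ^ (2 ^ 17 * η) =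
        2 ^ 14 * ((Fintype.card V : ℝ) / k) * (Fintype.card V : ℝ) ^ (2 ^ 17 * η) := by ring
    rw [h4] at h3
    linarith
  have hD3 : 3 ≤ D := by
    have h1 : (3 : ℝ) ≤ D := by
      refine le_trans ?_ hD
      have h2 : 1 ≤ (Fintype.card V : ℝ) / k := by rw [le_div_iff₀ hk0]; linarith
      have h3 : 1 ≤ (Fintype.card V : ℝ) / k * (Fintype.card V : ℝ) ^ (2 ^ 17 * η) :=
        one_le_mul_of_one_le_of_one_le h2 hX1
      nlinarith
    exact_mod_cast h1
  have hEn0 : En (Pw G d) L ≤ η * k := by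
    rw [L_cut G d hd hG] at hcut
    have h2 : η * (d * (k : ℝ)) = d * (η * k) := by ring
    rw [h2] at hcut
    exact le_of_mul_le_mul_left hcut hd0
  have hEnR := En_kill hP R hD3 hL
  obtain ⟨S, hS, hPS⟩ := core (t_TRACE t_CHEEGER) t_ITER t_ROUND
    (fun u v => if u ∈ R ∨ v ∈ R then 0 else Pw G d u v) (kill_ker hP R) k m (1 / 2) (1 / 2)
    (7 * η) hk hkn hm1 (by omega) (by norm_num) (by norm_num) (by norm_num) (by norm_num)
    (by positivity) (by linarith) hSE D hlev L hL hcard (by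
      refine hEnR.trans ?_
      nlinarith)
  have h1 := hPS.trans (Pw_in_nonneg hP R S)
  have h2 := hno S hS
  have : 0 < (k : ℝ) := hk0
  nlinarith

theorem main0 (hd : 1 ≤ d) (η : ℝ) (S : Finset V) (hS : S.card = k)
    (hcut : (cut G S : ℝ) ≤ η * (d * k)) (D : ℕ) :
    ∃ L : ((V → Bool) → ℝ) →ₗ[ℝ] ℝ, SAh D L ∧
      (∀ T : Finset V, T.card < D → ∀ f : (V → Bool) → ℝ, Dep T f →
        L (fun x => f x * (∑ v, ind v true x - k)) = 0) ∧ L (cutF G) ≤ η * (d * k) := by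
  obtain ⟨x, hx⟩ : ∃ x : V → Bool, x = fun v => decide (v ∈ S) := ⟨_, rfl⟩
  have hxv : ∀ v, x v = true ↔ v ∈ S := fun v => by rw [hx]; simp
  have hxf : ∀ v, x v = false ↔ v ∉ S := fun v => by rw [hx]; simp
  refine ⟨LinearMap.proj x, ⟨rfl, fun T _ f _ hf => hf x⟩, fun T _ f _ => ?_, ?_⟩
  · show f x * (∑ v, ind v true x - k) = 0
    have h1 : ∑ v, ind v true x = k := by
      unfold ind
      simp only [hxv]
      rw [Finset.sum_boole, ← hS]
      congr 2
      ext v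
      simp
    rw [h1, sub_self, mul_zero]
  · show cutF G x ≤ η * (d * k)
    refine le_trans (le_of_eq ?_) hcut
    unfold cutF cut
    rw [Finset.card_filter, ← Finset.univ_product_univ, Finset.sum_product]
    push_cast
    refine sum_congr rfl fun u _ => sum_congr rfl fun v _ => ?_
    simp only [hxv, hxf]

end

end Pool.Agent.Helper72.SE
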