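import Pool.Agent.Helper72.SE.Core

/-!
Regular graphs.
-/

set_option autoImplicit false

namespace Pool.Agent.Helper72.SE

open Finset Pool.Agent.H647R3.UG Pool.Agent.Helper72.SA Pool.Agent.TH522.UG
open scoped Classical

section
variable {V : Type} [Fintype V]

/-- the random walk on a `d`-regular graph -/
noncomputable def Pw (G : SimpleGraph V) (d : ℕ) (u v : V) : ℝ := (if G.Adj u v then 1 else 0) / d

/-- the number of the edges with exactly one endpoint in `S` -/
noncomputable def cut (G : SimpleGraph V) (S : Finset V) : ℕ :=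
  (univ.filter fun p : V × V => G.Adj p.1 p.2 ∧ p.1 ∈ S ∧ p.2 ∉ S).card

variable (G : SimpleGraph V) (d : ℕ)

theorem adj_sum (hG : ∀ u, (univ.filter fun v => G.Adj u v).card = d) (u : V) :
    ∑ v, (if G.Adj u v then (1 : ℝ) else 0) = d := by
  rw [← hG u, Finset.sum_boole]

theorem Pw_ker (hd : 1 ≤ d) (hG : ∀ u, (univ.filter fun v => G.Adj u v).card = d) :
    Ker (Pw G d) := by
  have hd0 : (0 : ℝ) < d := by exact_mod_cast hd
  refine ⟨fun u v => ?_, fun u v => ?_, fun u => ?_⟩
  · unfold Pw
    split_ifs <;> positivity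
  · unfold Pw
    simp only [G.adj_comm u v]
  · unfold Pw
    rw [← sum_div, adj_sum G d hG, div_self hd0.ne']

theorem Pw_row (hd : 1 ≤ d) (hG : ∀ u, (univ.filter fun v => G.Adj u v).card = d) (u : V) :
    ∑ v, Pw G d u v = 1 := by
  have hd0 : (0 : ℝ) < d := by exact_mod_cast hd
  unfold Pw
  rw [← sum_div, adj_sum G d hG, div_self hd0.ne']

theorem cut_eq (hd : 1 ≤ d) (hG : ∀ u, (univ.filter fun v => G.Adj u v).card = d) (S : Finset V) :
    (cut G S : ℝ) = d * (S.card - ∑ u ∈ S, ∑ v ∈ S, Pw G d u v) := by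
  have hd0 : (0 : ℝ) < d := by exact_mod_cast hd
  have h1 : (cut G S : ℝ) = ∑ u ∈ S, ∑ v ∈ univ \ S, (if G.Adj u v then (1 : ℝ) else 0) := by
    unfold cut
    rw [Finset.card_filter, ← Finset.univ_product_univ, Finset.sum_product]
    push_cast
    rw [← Finset.sum_subset (Finset.subset_univ S)]
    · refine Finset.sum_congr rfl fun u hu => ?_
      rw [← Finset.sum_subset (Finset.subset_univ (univ \ S))]
      · refine Finset.sum_congr rfl fun v hv => ?_
        have hv' := (mem_sdiff.1 hv).2
        simp [hu, hv']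
      · intro v _ hv
        simp only [mem_sdiff, mem_univ, true_and, not_not] at hv
        simp [hv]
    · intro u _ hu
      refine Finset.sum_eq_zero fun v _ => ?_
      simp [hu]
  have h2 : ∀ u ∈ S, ∑ v ∈ univ \ S, (if G.Adj u v then (1 : ℝ) else 0) =
      d * (1 - ∑ v ∈ S, Pw G d u v) := by
    intro u _
    have h3 := Finset.sum_sdiff (f := fun v => (if G.Adj u v then (1 : ℝ) else 0))
      (Finset.subset_univ S)
    rw [adj_sum G d hG] at h3
    have h4 : ∑ v ∈ S, Pw G d u v = (∑ v ∈ S, (if G.Adj u v then (1 : ℝ) else 0)) / d := by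
      unfold Pw
      rw [sum_div]
    rw [h4, mul_sub, mul_one, mul_div_cancel₀ _ hd0.ne']
    linarith
  rw [h1, Finset.sum_congr rfl h2, ← mul_sum, Finset.sum_sub_distrib]
  simp

/-- the number of cut edges, as a function of the indicator function -/
noncomputable def cutF (G : SimpleGraph V) (x : V → Bool) : ℝ :=
  ∑ u, ∑ v, if G.Adj u v ∧ x u = true ∧ x v = false then 1 else 0

theorem L_cut (hd : 1 ≤ d) (hG : ∀ u, (univ.filter fun v => G.Adj u v).card = d)
    (L : ((V → Bool) → ℝ) →ₗ[ℝ] ℝ) :
    L (cutF G) = d * En (Pw G d) L := by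
  have hd0 : (0 : ℝ) < d := by exact_mod_cast hd
  have h1 : cutF G = ∑ u, ∑ v, (if G.Adj u v then (1 : ℝ) else 0) •
      (ind u true - fun x => ind u true x * ind v true x) := by
    funext x
    unfold cutF
    simp only [Finset.sum_apply, Pi.smul_apply, Pi.sub_apply, smul_eq_mul]
    refine sum_congr rfl fun u _ => sum_congr rfl fun v _ => ?_
    unfold ind
    by_cases h : G.Adj u v <;> cases hu : x u <;> cases hv : x v <;> simp [h]
  rw [h1]
  simp only [map_sum, map_smul, map_sub, smul_eq_mul]
  unfold En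
  rw [mul_sub, mul_sum, mul_sum, ← sum_sub_distrib]
  refine sum_congr rfl fun u _ => ?_
  have h2 : ∀ v, (if G.Adj u v then (1 : ℝ) else 0) * (L (ind u true) -
      L fun x => ind u true x * ind v true x) =
      (if G.Adj u v then (1 : ℝ) else 0) * pr L u true -
        d * (Pw G d u v * pr2 L u v true true) := by
    intro v
    unfold Pw
    have : (d : ℝ) * ((if G.Adj u v then (1 : ℝ) else 0) / d * pr2 L u v true true) =
        (if G.Adj u v then (1 : ℝ) else 0) * pr2 L u v true true := by
      field_simp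
    rw [this]
    show _ * (pr L u true - pr2 L u v true true) = _
    ring
  rw [sum_congr rfl fun v _ => h2 v, sum_sub_distrib, ← sum_mul, adj_sum G d hG, mul_sum]

/-- removing vertices -/
theorem En_kill {P : V → V → ℝ} (hP : Ker P) (R : Finset V) {D : ℕ} (hD : 3 ≤ D)
    {L : ((V → Bool) → ℝ) →ₗ[ℝ] ℝ} (hL : SAh D L) :
    En (fun u v => if u ∈ R ∨ v ∈ R then 0 else P u v) L ≤ En P L + 2 * R.card := by
  have h1 : ∀ u v, pr2 L u v true true ≤ 1 := by
    intro u v
    have h := Sx.law hD hL u v
    have e1 := h.left true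
    rw [Fintype.sum_bool] at e1
    have e2 := h.one
    rw [Fintype.sum_bool] at e2
    have e3 := h.nonneg true false
    have e4 := Sx.pr_nonneg hD hL u false
    linarith
  have h0 : ∀ u v, 0 ≤ pr2 L u v true true := fun u v => Sx.pr2_nonneg hD hL u v true true
  have h2 : ∑ u, ∑ v, P u v * pr2 L u v true true ≤
      ∑ u, ∑ v, ((if u ∈ R ∨ v ∈ R then 0 else P u v) * pr2 L u v true true +
        ((if u ∈ R then P u v else 0) + (if v ∈ R then P v u else 0))) := by
    refine sum_le_sum fun u _ => sum_le_sum fun v _ => ?_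
    have := mul_le_of_le_one_right (hP.nn u v) (h1 u v)
    rw [hP.sy v u]
    have := hP.nn u v
    by_cases hu : u ∈ R <;> by_cases hv : v ∈ R <;> simp [hu, hv] <;> linarith
  have h3 : ∑ u, ∑ v, (if u ∈ R then P u v else 0) ≤ R.card := by
    have e : ∀ u, ∑ v, (if u ∈ R then P u v else 0) ≤ if u ∈ R then 1 else 0 := by
      intro u
      by_cases hu : u ∈ R
      · simp only [hu, if_true]; exact hP.row u
      · simp [hu]
    refine (sum_le_sum fun u _ => e u).trans (le_of_eq ?_)
    rw [Finset.sum_ite_mem, Finset.univ_inter, Finset.sum_const, nsmul_eq_mul, mul_one]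
  have h4 : ∑ u, ∑ v, (if v ∈ R then P v u else 0) ≤ R.card := by
    rw [sum_comm]
    exact h3
  simp only [sum_add_distrib] at h2
  unfold En
  linarith

end

end Pool.Agent.Helper72.SE
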