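import Pool.Agent.Helper72.SE.Stm

/-!
One conditioning step.
-/

set_option autoImplicit false

namespace Pool.Agent.Helper72.SE

open Finset Pool.Agent.H647R3.UG Pool.Agent.Helper72.SA Pool.Agent.TH522.UG

section
variable {V : Type} [Fintype V] [DecidableEq V] {P : V → V → ℝ}

theorem lz_nn (hP : Ker P) (u v : V) : 0 ≤ lz P u v := by
  unfold lz
  have := hP.nn u v
  split_ifs <;> linarith

theorem lz_sy (hP : Ker P) (u v : V) : lz P u v = lz P v u := by
  unfold lz
  rw [hP.sy u v]
  by_cases h : u = v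
  · rw [if_pos h, if_pos h.symm]
  · rw [if_neg h, if_neg fun e => h e.symm]

theorem lz_row (hP : Ker P) (u : V) : ∑ v, lz P u v ≤ 1 := by
  unfold lz
  rw [← mul_sum, sum_add_distrib, sum_ite_eq univ u, if_pos (mem_univ _)]
  have := hP.row u
  linarith

theorem pow_nn (hP : Ker P) (t : ℕ) (u v : V) : 0 ≤ (lz P ^ t) u v := by
  induction t generalizing u v with
  | zero =>
    rw [pow_zero, Matrix.one_apply]
    split_ifs <;> norm_num
  | succ t ih =>
    rw [pow_succ, Matrix.mul_apply]
    exact sum_nonneg fun z _ => mul_nonneg (ih u z) (lz_nn hP z v)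

theorem pow_semi (s s' : ℕ) (u v : V) :
    ∑ z, (lz P ^ s) u z * (lz P ^ s') z v = (lz P ^ (s + s')) u v := by
  rw [pow_add, Matrix.mul_apply]

theorem pow_sy (hP : Ker P) (t : ℕ) (u v : V) : (lz P ^ t) u v = (lz P ^ t) v u := by
  have h : (lz P).IsSymm := by
    ext i j
    rw [Matrix.transpose_apply]
    exact lz_sy hP j i
  have h2 := congrFun (congrFun (h.pow t) u) v
  rw [Matrix.transpose_apply] at h2
  exact h2.symm

theorem pow_row (hP : Ker P) (t : ℕ) (u : V) : ∑ v, (lz P ^ t) u v ≤ 1 := by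
  induction t generalizing u with
  | zero =>
    simp only [pow_zero, Matrix.one_apply]
    rw [sum_ite_eq univ u, if_pos (mem_univ _)]
  | succ t ih =>
    simp only [pow_succ, Matrix.mul_apply]
    rw [sum_comm]
    calc ∑ z, ∑ v, (lz P ^ t) u z * lz P z v = ∑ z, (lz P ^ t) u z * ∑ v, lz P z v :=
          sum_congr rfl fun z _ => by rw [mul_sum]
      _ ≤ ∑ z, (lz P ^ t) u z :=
          sum_le_sum fun z _ => mul_le_of_le_one_right (pow_nn hP t u z) (lz_row hP z)
      _ ≤ 1 := ih u

/-- covariance -/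
noncomputable def cv (L : ((V → Bool) → ℝ) →ₗ[ℝ] ℝ) (u v : V) : ℝ :=
  pr2 L u v true true - pr L u true * pr L v true

theorem cv_LP {N D : ℕ} (hN : N ≤ D) {L : ((V → Bool) → ℝ) →ₗ[ℝ] ℝ} (hL : SAh D L) :
    LP N (cv L) := by
  intro x c
  have key : ∀ u v : V, cv L u v =
      L (fun z => (ind u true z - pr L u true) * (ind v true z - pr L v true)) := by
    intro u v
    have h1 : (fun z : V → Bool => (ind u true z - pr L u true) * (ind v true z - pr L v true)) =
        (fun z => ind u true z * ind v true z) - (pr L v true) • (ind u true) -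
          (pr L u true) • (ind v true) + (pr L u true * pr L v true) • (fun _ => (1 : ℝ)) := by
      funext z
      simp only [Pi.add_apply, Pi.sub_apply, Pi.smul_apply, smul_eq_mul]
      ring
    rw [h1, map_add, map_sub, map_sub, map_smul, map_smul, map_smul, hL.one]
    simp only [smul_eq_mul]
    change pr2 L u v true true - _ =
      pr2 L u v true true - pr L v true * pr L u true - pr L u true * pr L v true + _
    ring
  have h2 := hL.junta (univ.image x) ((card_image_le).trans (by
      rw [card_univ, Fintype.card_fin]; exact hN))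
    (fun z => (∑ i, c i * (ind (x i) true z - pr L (x i) true)) ^ 2) (fun z z' h => by
      have : ∀ i, ind (x i) true z = ind (x i) true z' := fun i =>
        Mx.dep_ind (x i) true (univ.image x) (mem_image_of_mem _ (mem_univ i)) z z' h
      simp only [this]) (fun z => sq_nonneg _)
  have e2 : (fun z : V → Bool => (∑ i, c i * (ind (x i) true z - pr L (x i) true)) ^ 2) =
      ∑ i, ∑ j, (c i * c j) • (fun z : V → Bool =>
        (ind (x i) true z - pr L (x i) true) * (ind (x j) true z - pr L (x j) true)) := by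
    funext z
    simp only [Finset.sum_apply, Pi.smul_apply, smul_eq_mul]
    rw [sq, Finset.sum_mul_sum]
    refine Finset.sum_congr rfl fun i _ => Finset.sum_congr rfl fun j _ => by ring
  rw [e2] at h2
  simp only [map_sum, map_smul, smul_eq_mul] at h2
  simpa only [key] using h2

theorem cv_symm (L : ((V → Bool) → ℝ) →ₗ[ℝ] ℝ) (u v : V) : cv L u v = cv L v u := by
  unfold cv
  rw [FB.symm L u v true true, mul_comm]

theorem pr_false {D : ℕ} {L : ((V → Bool) → ℝ) →ₗ[ℝ] ℝ} (hL : SAh D L) (u : V) :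
    pr L u false = 1 - pr L u true := by
  have h := FB.one L hL.one u
  rw [Fintype.sum_bool] at h
  linarith

theorem vr_eq {D : ℕ} {L : ((V → Bool) → ℝ) →ₗ[ℝ] ℝ} (hL : SAh D L) (u : V) :
    vr L u = 2 * (pr L u true * (1 - pr L u true)) := by
  unfold vr
  rw [Fintype.sum_bool, pr_false hL]
  ring

theorem cv_self (L : ((V → Bool) → ℝ) →ₗ[ℝ] ℝ) (u : V) :
    cv L u u = pr L u true * (1 - pr L u true) := by
  unfold cv
  rw [Mx.diag]
  unfold dg
  rw [if_pos rfl]
  ring

/-- the decrease of the variances -/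
theorem dec_ge {D : ℕ} (hD : 3 ≤ D) {L : ((V → Bool) → ℝ) →ₗ[ℝ] ℝ} (hL : SAh D L) (w u : V) :
    2 * cv L w u ^ 2 ≤ pr L w true * (1 - pr L w true) * dec L w u := by
  have hpf := pr_false hL
  have htf : pr2 L w u true false = pr L w true - pr2 L w u true true := by
    have h := FB.left L w u true
    rw [Fintype.sum_bool] at h
    linarith
  have hft : pr2 L w u false true = pr L u true - pr2 L w u true true := by
    have h := FB.right L w u true
    rw [Fintype.sum_bool] at h
    linarith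
  have hff : pr2 L w u false false = 1 - pr L w true - pr L u true + pr2 L w u true true := by
    have h := FB.left L w u false
    rw [Fintype.sum_bool, hpf] at h
    linarith
  have h0 := Sx.pr_nonneg hD hL w true
  have h0' := Sx.pr_nonneg hD hL w false
  have n1 := Sx.pr2_nonneg hD hL w u true true
  have n2 := Sx.pr2_nonneg hD hL w u true false
  have n3 := Sx.pr2_nonneg hD hL w u false true
  have n4 := Sx.pr2_nonneg hD hL w u false false
  rw [hpf] at h0'
  rw [htf] at n2
  rw [hft] at n3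
  rw [hff] at n4
  unfold dec cv
  rw [Fintype.sum_bool, Fintype.sum_bool, Fintype.sum_bool, htf, hft, hff, hpf, hpf]
  set p := pr L w true
  set q := pr L u true
  set r := pr2 L w u true true
  rcases eq_or_lt_of_le h0 with hp | hp
  · have hr : r = 0 := by linarith
    rw [← hp, hr]
    simp
  · rcases eq_or_lt_of_le h0' with hp1 | hp1
    · have hp2 : p = 1 := by linarith
      have hr : r = q := by linarith
      rw [hp2, hr]
      simp
    · have e1 : p * (1 - p) * (((r - p * q) ^ 2 / p + (p - r - p * (1 - q)) ^ 2 / p) +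
          ((q - r - (1 - p) * q) ^ 2 / (1 - p) +
          (1 - p - q + r - (1 - p) * (1 - q)) ^ 2 / (1 - p))) = 2 * (r - p * q) ^ 2 := by
        field_simp
        ring
      rw [e1]

/-- the step -/
theorem t_STEP : S_STEP := by
  intro V _ _ P hP T N τ hN hτ hτ1 htr M hM hM' L hL hPh hEn
  have hMpos : (0 : ℝ) < M := lt_of_lt_of_le (by positivity) hM
  have hM0 : 0 < M := by exact_mod_cast hMpos
  have hM48 : (48 : ℝ) ≤ M := by
    have h1 : (1 : ℝ) ≤ (2 : ℝ) ^ (8 * τ * T) := Real.one_le_rpow (by norm_num) (by positivity)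
    linarith
  have hM48' : 48 ≤ M := by exact_mod_cast hM48
  have hD : 3 ≤ M + M := by omega
  set y : V → ℝ := fun u => pr L u true with hy
  have hlz1 : ∀ g : V → V → ℝ, ∑ u, ∑ v, lz P u v * g u v =
      1 / 2 * (∑ u, g u u) + 1 / 2 * ∑ u, ∑ v, P u v * g u v := by
    intro g
    have e : ∀ u, ∑ v, lz P u v * g u v = 1 / 2 * g u u + 1 / 2 * ∑ v, P u v * g u v := by
      intro u
      unfold lz
      have e1 : ∀ v, 1 / 2 * ((if u = v then (1 : ℝ) else 0) + P u v) * g u v =
          1 / 2 * (if u = v then g u v else 0) + 1 / 2 * (P u v * g u v) := by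
        intro v
        split_ifs <;> ring
      rw [sum_congr rfl fun v _ => e1 v, sum_add_distrib, ← mul_sum, ← mul_sum,
        sum_ite_eq univ u, if_pos (mem_univ _)]
    rw [sum_congr rfl fun u _ => e u, sum_add_distrib, ← mul_sum, ← mul_sum]
  obtain ⟨f, hf⟩ : ∃ f : ℕ → ℝ, f = fun t => ∑ u, ∑ v, (1 : ℝ) * 1 * (lz P ^ t) u v * cv L u v :=
    ⟨_, rfl⟩
  have hf0 : f 0 = ∑ u : V, (1 : ℝ) * cv L u u := by
    rw [hf]
    refine sum_congr rfl fun u _ => ?_
    rw [sum_eq_single u]
    · rw [pow_zero, Matrix.one_apply_eq]; ring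
    · intro v _ hv
      rw [pow_zero, Matrix.one_apply_ne hv.symm]; ring
    · intro h; exact absurd (mem_univ u) h
  have hPhf : Ph L = 2 * f 0 := by
    unfold Ph
    rw [hf0, mul_sum]
    refine sum_congr rfl fun u _ => ?_
    rw [vr_eq hL, cv_self, one_mul]
  have hf0pos : 0 < f 0 := by linarith
  have hf1 : (1 - τ) * f 0 ≤ f 1 := by
    have e1 : f 1 = 1 / 2 * (∑ u, cv L u u) + 1 / 2 * ∑ u, ∑ v, P u v * cv L u v := by
      rw [hf, ← hlz1]
      refine sum_congr rfl fun u _ => sum_congr rfl fun v _ => ?_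
      rw [pow_one]; ring
    have e0 : f 0 = ∑ u, cv L u u := by rw [hf0]; exact sum_congr rfl fun u _ => one_mul _
    have e2 : ∑ u, cv L u u = ∑ u, y u - ∑ u, y u ^ 2 := by
      rw [← sum_sub_distrib]
      refine sum_congr rfl fun u _ => ?_
      rw [cv_self]
      ring
    have e3 : ∑ u, ∑ v, P u v * cv L u v =
        ∑ u, ∑ v, P u v * pr2 L u v true true - ∑ u, ∑ v, P u v * (y u * y v) := by
      rw [← sum_sub_distrib]
      refine sum_congr rfl fun u _ => ?_
      rw [← sum_sub_distrib]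
      refine sum_congr rfl fun v _ => ?_
      unfold cv
      ring
    have e4 : ∑ u, ∑ v, P u v * (y u * y v) ≤ ∑ u, y u ^ 2 := by
      have s1 : ∑ u, ∑ v, P u v * (y u * y v) ≤
          ∑ u, ∑ v, (1 / 2 * (P u v * y u ^ 2) + 1 / 2 * (P v u * y v ^ 2)) := by
        refine sum_le_sum fun u _ => sum_le_sum fun v _ => ?_
        rw [hP.sy v u]
        have := mul_nonneg (hP.nn u v) (sq_nonneg (y u - y v))
        nlinarith
      have s2 : ∑ u, ∑ v, P u v * y u ^ 2 ≤ ∑ u, y u ^ 2 := by
        refine sum_le_sum fun u _ => ?_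
        rw [← sum_mul]
        exact mul_le_of_le_one_left (sq_nonneg _) (hP.row u)
      have s3 : ∑ u, ∑ v, (1 / 2 * (P u v * y u ^ 2) + 1 / 2 * (P v u * y v ^ 2)) =
          ∑ u, ∑ v, P u v * y u ^ 2 := by
        simp only [sum_add_distrib, ← mul_sum]
        rw [sum_comm (f := fun u v => P v u * y v ^ 2)]
        ring
      linarith
    unfold En at hEn
    rw [hPhf] at hEn
    change ∑ u, y u - _ ≤ _ at hEn
    rw [e1, e3]
    rw [← e0]
    nlinarith
  have hAC : AC f M := ac_of_semigroup (fun _ : V => (1 : ℝ)) (fun t u v => (lz P ^ t) u v)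
    (fun _ => zero_le_one) (fun s u v => pow_nn hP s u v) (fun s u v => pow_sy hP s u v)
    (fun s s' u v => by simp only [one_mul]; exact pow_semi s s' u v)
    (fun s u => by simp only [one_mul]; exact pow_row hP s u) (cv L) (cv_symm L) M hM0
    (cv_LP le_rfl hL) f (fun t => by rw [hf]) hf0
  obtain ⟨t, ht, hft⟩ := ac_lower hAC hf0pos τ hτ hτ1 hf1 T hM hM'
  have hCS : f t ^ 2 ≤ N * ∑ u, ∑ v, cv L u v ^ 2 := by
    have h1 := Finset.sum_sq_le_sum_mul_sum_of_sq_le_mul ((univ : Finset V) ×ˢ (univ : Finset V))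
      (r := fun p => (lz P ^ t) p.1 p.2 * cv L p.1 p.2)
      (f := fun p => (lz P ^ t) p.1 p.2 ^ 2) (g := fun p => cv L p.1 p.2 ^ 2)
      (fun p _ => sq_nonneg _) (fun p _ => sq_nonneg _) (fun p _ => le_of_eq (by ring))
    rw [sum_product, sum_product, sum_product] at h1
    have h2 : f t = ∑ u, ∑ v, (lz P ^ t) u v * cv L u v := by
      rw [hf]
      exact sum_congr rfl fun u _ => sum_congr rfl fun v _ => by ring
    rw [h2]
    refine h1.trans (mul_le_mul_of_nonneg_right (htr t ht) ?_)
    exact sum_nonneg fun u _ => sum_nonneg fun v _ => sq_nonneg _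
  obtain ⟨Z, hZ⟩ : ∃ Z : ℝ, Z = (2 : ℝ) ^ (-(8 * τ * T)) := ⟨_, rfl⟩
  have hZ0 : 0 < Z := by rw [hZ]; positivity
  have hZ2 : (2 : ℝ) ^ (-(16 * τ * T)) = Z ^ 2 := by
    rw [hZ, ← Real.rpow_natCast, ← Real.rpow_mul (by norm_num)]
    congr 1
    push_cast
    ring
  rw [← hZ] at hft
  have hlow : (1 / 2 * Z * f 0) ^ 2 ≤ N * ∑ u, ∑ v, cv L u v ^ 2 :=
    (pow_le_pow_left₀ (by positivity) hft 2).trans hCS
  by_contra hcon
  push Not at hcon
  rw [hZ2] at hcon
  have hdec : ∀ w, ∑ v, dec L w v < Ph L * (Z ^ 2 / (4 * N)) := by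
    intro w
    refine lt_of_le_of_lt (le_of_eq ?_) (hcon w)
    unfold Ph
    simp only [mul_sum]
    rw [sum_comm, ← sum_sub_distrib]
    exact sum_congr rfl fun v _ => Sx.fd hD hL w v
  have hyy : ∀ w, 0 ≤ pr L w true * (1 - pr L w true) := by
    intro w
    have h1 := Sx.pr_nonneg hD hL w false
    rw [pr_false hL] at h1
    exact mul_nonneg (Sx.pr_nonneg hD hL w true) h1
  have hf0' : f 0 = ∑ w, pr L w true * (1 - pr L w true) := by
    rw [hf0]
    exact sum_congr rfl fun u _ => by rw [one_mul, cv_self]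
  have hup : 2 * ∑ u, ∑ v, cv L u v ^ 2 < f 0 * (Ph L * (Z ^ 2 / (4 * N))) := by
    have h1 : 2 * ∑ u, ∑ v, cv L u v ^ 2 ≤
        ∑ w, pr L w true * (1 - pr L w true) * ∑ v, dec L w v := by
      rw [mul_sum]
      refine sum_le_sum fun w _ => ?_
      rw [mul_sum, mul_sum]
      exact sum_le_sum fun v _ => dec_ge hD hL w v
    refine lt_of_le_of_lt h1 ?_
    rw [hf0', sum_mul]
    obtain ⟨w0, -, hw0⟩ : ∃ w ∈ (univ : Finset V), 0 < pr L w true * (1 - pr L w true) := by
      apply exists_lt_of_sum_lt (f := fun _ => (0 : ℝ))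
      rw [sum_const_zero, ← hf0']
      exact hf0pos
    exact sum_lt_sum (fun w _ => mul_le_mul_of_nonneg_left (hdec w).le (hyy w))
      ⟨w0, mem_univ _, mul_lt_mul_of_pos_left (hdec w0) hw0⟩
  rw [hPhf] at hup
  have e5 : N * (f 0 * (2 * f 0 * (Z ^ 2 / (4 * N)))) = 2 * (1 / 2 * Z * f 0) ^ 2 := by
    field_simp
    ring
  have h6 := mul_lt_mul_of_pos_left hup hN
  rw [e5] at h6
  linarith

end

end Pool.Agent.Helper72.SE
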